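import Mathlib
import Pool.Agent.Lib.MP_44ed1d_co.Linear

set_option autoImplicit false

namespace Pool.Agent.Results.MP_44ed1d_co.LinearBound

/-- There is an absolute constant C such that for every k ≥ 1 every finite loopless semicomplete
digraph with at least C * k vertices which stays strong after deleting any set of at most k - 1
arcs has a partition of its arcs into k classes (the colour classes of f), each strong on the
whole vertex set. -/
theorem result :
    ∃ C : ℕ, ∀ (k : ℕ), 1 ≤ k →
    ∀ (V : Type) [Fintype V] (D : Digraph V), C * k ≤ Fintype.card V →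
      (∀ v, ¬ D.Adj v v) →
      (∀ u v, u ≠ v → D.Adj u v ∨ D.Adj v u) →
      (∀ S : Finset (V × V), (∀ e ∈ S, D.Adj e.1 e.2) → S.card ≤ k - 1 →
        ∀ u v, Relation.ReflTransGen (fun a b => D.Adj a b ∧ (a, b) ∉ S) u v) →
      ∃ f : V → V → Fin k, ∀ i : Fin k, ∀ u v,
        Relation.ReflTransGen (fun a b => D.Adj a b ∧ f a b = i) u v := by
  refine ⟨3000000000000, fun k hk V _ D hV hirr hsc hs => ?_⟩
  exact Pool.Agent.Lib.MP_44ed1d_co.linear k hk V D.Adj hV hirr hsc hs

end Pool.Agent.Results.MP_44ed1d_co.LinearBound
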