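import Mathlib
import Pool.Agent.Lib.MP_44ed1d_co.Semi

set_option autoImplicit false

namespace Pool.Agent.Results.MP_44ed1d_co.SemiDegree

/-- For every ε > 0 there is K such that for every k ≥ 1 every finite loopless semicomplete
digraph which stays strong after deleting any set of at most k - 1 arcs and has all out-degrees
and all in-degrees at least (1 + ε) k + K has a partition of its arcs into k classes (the colour
classes of f), each strong on the whole vertex set. -/
theorem result :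
    ∀ ε : ℝ, 0 < ε → ∃ K : ℕ, ∀ (k : ℕ), 1 ≤ k →
    ∀ (V : Type) [Fintype V] (D : Digraph V),
      (∀ v, ¬ D.Adj v v) →
      (∀ u v, u ≠ v → D.Adj u v ∨ D.Adj v u) →
      (∀ S : Finset (V × V), (∀ e ∈ S, D.Adj e.1 e.2) → S.card ≤ k - 1 →
        ∀ u v, Relation.ReflTransGen (fun a b => D.Adj a b ∧ (a, b) ∉ S) u v) →
      (∀ v, (1 + ε) * (k : ℝ) + (K : ℝ) ≤ ({w | D.Adj v w}.ncard : ℝ)) →
      (∀ v, (1 + ε) * (k : ℝ) + (K : ℝ) ≤ ({w | D.Adj w v}.ncard : ℝ)) →
      ∃ f : V → V → Fin k, ∀ i : Fin k, ∀ u v,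
        Relation.ReflTransGen (fun a b => D.Adj a b ∧ f a b = i) u v := by
  intro ε hε
  obtain ⟨K, hK⟩ := Pool.Agent.Lib.MP_44ed1d_co.semi ε hε
  exact ⟨K, fun k hk V _ D => hK k hk V D.Adj⟩

end Pool.Agent.Results.MP_44ed1d_co.SemiDegree
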